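import Pool.Agent.Q161.ESN.Stm1

/-!
# ESN AN (project ESN of helper161; copy of Pool.Agent.Q177.ESM.AN): the number of all vectors of bounded norm
-/

set_option autoImplicit false

namespace Pool.Agent.Q241.ESN

open Finset Pool.Agent.Q161.ESN

theorem exists_sort {ι : Type} [Fintype ι] (w : ι → ℕ) :
    ∃ e : ι ≃ Fin (Fintype.card ι), Monotone (w ∘ e.symm) := by
  let e0 := Fintype.equivFin ι
  let f : Fin (Fintype.card ι) → ℕ := w ∘ e0.symm
  refine ⟨e0.trans (Tuple.sort f).symm, ?_⟩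
  exact Tuple.monotone_sort f

theorem prod_pow_two {ι : Type} [Fintype ι] {k : ℕ} (n : ι → ℕ) (e : ι ≃ Fin k) (w : Fin k → ℕ) :
    ∏ i, ((2 : ℝ) ^ w (e i)) ^ n i = 2 ^ (∑ j, n (e.symm j) * w j) := by
  rw [← Equiv.sum_comp e (fun j => n (e.symm j) * w j), ← Finset.prod_pow_eq_pow_sum]
  refine Finset.prod_congr rfl (fun i _ => ?_)
  rw [← pow_mul, Equiv.symm_apply_apply, mul_comm]

theorem vs_two {ι : Type} {k : ℕ} (e : ι ≃ Fin k) (w : Fin k → ℕ) :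
    vs e (fun i => (2 : ℝ) ^ w (e i)) =
      fun j => if h : j < k then 1 + (w ⟨j, h⟩ : ℝ) * Real.log 2 else 1 := by
  funext j
  unfold vs vv
  by_cases h : j < k
  · rw [dif_pos h, dif_pos h]
    change 1 + Real.log ((2 : ℝ) ^ w (e (e.symm ⟨j, h⟩))) = _
    rw [Equiv.apply_symm_apply, Real.log_pow]
  · rw [dif_neg h, dif_neg h]

theorem an (hBX : S_BX) (hSM : S_SM) : S_AN := by
  intro ι _ _ _ n s A c κ hOk hEx
  classical
  obtain ⟨b, C, hb, hb1, hC, hbox⟩ := hBX ι n s A c κ hOk hEx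
  have hk1 : 1 ≤ Fintype.card ι := Fintype.card_pos
  have hsm : ∀ e : ι ≃ Fin (Fintype.card ι), ∃ Ce : ℝ, 0 < Ce ∧ ∀ r : ℕ,
      ∑ w ∈ (Fintype.piFinset (fun _ : Fin (Fintype.card ι) => range (r + 1))).filter
          (fun w => Monotone w ∧ ∑ j, n (e.symm j) * w j = r),
        Phi (Fintype.card ι) b (fun j => if h : j < Fintype.card ι then
          1 + (w ⟨j, h⟩ : ℝ) * Real.log 2 else 1) (Fintype.card ι - 1) ≤ Ce := by
    intro e
    obtain ⟨Ce, h0, h1⟩ := hSM (Fintype.card ι) (fun j => n (e.symm j)) b hk1 (fun j => hOk.n1 _) hb hb1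
    exact ⟨Ce, h0, fun r => by convert h1 r⟩
  choose Ce hCe0 hCe using hsm
  refine ⟨(∑ e : ι ≃ Fin (Fintype.card ι), C * Ce e) * 2 ^ (∑ i, n i + 1) + 1, ?_, ?_⟩
  · have : 0 ≤ ∑ e : ι ≃ Fin (Fintype.card ι), C * Ce e :=
      Finset.sum_nonneg (fun e _ => (mul_pos hC (hCe0 e)).le)
    positivity
  intro T hT X hX
  set R := Nat.log 2 ⌊(2 : ℝ) ^ (∑ i, n i) * X⌋₊ with hR
  set SS : (ι ≃ Fin (Fintype.card ι)) → ℕ → Finset (Fin (Fintype.card ι) → ℕ) := fun e r =>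
    (Fintype.piFinset (fun _ : Fin (Fintype.card ι) => range (r + 1))).filter
      (fun w => Monotone w ∧ ∑ j, n (e.symm j) * w j = r) with hSS
  set D : (ι ≃ Fin (Fintype.card ι)) → (Fin (Fintype.card ι) → ℕ) → Set (Vc n) := fun e w =>
    {x ∈ T | ∀ i j, |(x i j : ℝ)| ≤ (2 : ℝ) ^ w (e i)} with hD
  have hbx : ∀ (e : ι ≃ Fin (Fintype.card ι)) (w : Fin (Fintype.card ι) → ℕ), Monotone w →
      (D e w).Finite ∧ ((D e w).ncard : ℝ) ≤ C * 2 ^ (∑ j, n (e.symm j) * w j) *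
        Phi (Fintype.card ι) b (fun j => if h : j < Fintype.card ι then
          1 + (w ⟨j, h⟩ : ℝ) * Real.log 2 else 1) (Fintype.card ι - 1) := by
    intro e w hw
    have h1 := hbox T hT (Fintype.card ι) e (fun i => (2 : ℝ) ^ w (e i))
      (fun i => one_le_pow₀ one_le_two) (fun i i' h => pow_le_pow_right₀ one_le_two (hw h))
    rw [vs_two, prod_pow_two] at h1
    exact h1
  -- the covering
  have hsub : {x ∈ T | ∃ H : ι → ℕ, (∀ i, 1 ≤ H i) ∧ (∀ i j, |x i j| ≤ H i) ∧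
      ((∏ i, H i ^ n i : ℕ) : ℝ) ≤ X} ⊆
      ⋃ e ∈ (univ : Finset (ι ≃ Fin (Fintype.card ι))), ⋃ r ∈ range (R + 1), ⋃ w ∈ SS e r, D e w := by
    rintro x ⟨hxT, H, hH1, hxH, hHX⟩
    obtain ⟨e, he⟩ := exists_sort (fun i => Nat.log 2 (H i) + 1)
    set w : Fin (Fintype.card ι) → ℕ := (fun i => Nat.log 2 (H i) + 1) ∘ e.symm with hw
    have hwe : ∀ i, w (e i) = Nat.log 2 (H i) + 1 := by
      intro i
      simp [hw]
    set r := ∑ j, n (e.symm j) * w j with hr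
    have hr2 : r = ∑ i, n i * (Nat.log 2 (H i) + 1) := by
      rw [hr, ← Equiv.sum_comp e]
      refine Finset.sum_congr rfl (fun i _ => ?_)
      rw [hwe, Equiv.symm_apply_apply]
    have hpow : (2 : ℝ) ^ r ≤ 2 ^ (∑ i, n i) * X := by
      have h1 : (2 : ℕ) ^ r = 2 ^ (∑ i, n i) * ∏ i, (2 ^ Nat.log 2 (H i)) ^ n i := by
        rw [hr2, ← Finset.prod_pow_eq_pow_sum, ← Finset.prod_pow_eq_pow_sum, ← Finset.prod_mul_distrib]
        refine Finset.prod_congr rfl (fun i _ => ?_)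
        rw [← pow_mul, ← pow_add]
        congr 1
        ring
      have h2 : ∏ i, (2 ^ Nat.log 2 (H i)) ^ n i ≤ ∏ i, H i ^ n i :=
        Finset.prod_le_prod' (fun i _ => Nat.pow_le_pow_left
          (Nat.pow_log_le_self 2 (by have := hH1 i; omega)) _)
      have h3 : (2 : ℕ) ^ r ≤ 2 ^ (∑ i, n i) * ∏ i, H i ^ n i := by
        rw [h1]
        exact Nat.mul_le_mul_left _ h2
      have h4 : ((2 : ℕ) ^ r : ℝ) ≤ ((2 ^ (∑ i, n i) * ∏ i, H i ^ n i : ℕ) : ℝ) := by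
        exact_mod_cast h3
      have h5 : ((2 ^ (∑ i, n i) * ∏ i, H i ^ n i : ℕ) : ℝ) =
          2 ^ (∑ i, n i) * ((∏ i, H i ^ n i : ℕ) : ℝ) := by
        push_cast
        ring
      rw [h5] at h4
      calc (2 : ℝ) ^ r = ((2 : ℕ) ^ r : ℝ) := by norm_num
        _ ≤ _ := h4
        _ ≤ _ := mul_le_mul_of_nonneg_left hHX (by positivity)
    have hrR : r ≤ R := by
      rw [hR]
      refine Nat.le_log_of_pow_le one_lt_two ?_
      refine Nat.le_floor ?_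
      push_cast
      exact hpow
    simp only [Set.mem_iUnion]
    refine ⟨e, mem_univ _, r, mem_range.2 (by omega), w, ?_, ?_⟩
    · rw [hSS]
      simp only [mem_filter, Fintype.mem_piFinset, mem_range]
      refine ⟨fun j => ?_, he, rfl⟩
      have h1 : w j ≤ n (e.symm j) * w j := Nat.le_mul_of_pos_left _ (hOk.n1 _)
      have h2 : n (e.symm j) * w j ≤ r := Finset.single_le_sum
        (f := fun j => n (e.symm j) * w j) (fun _ _ => Nat.zero_le _) (mem_univ j)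
      omega
    · refine ⟨hxT, fun i j => ?_⟩
      rw [hwe]
      have h1 : H i < 2 ^ (Nat.log 2 (H i) + 1) := Nat.lt_pow_succ_log_self one_lt_two _
      have h2 : (|x i j| : ℤ) ≤ ((2 ^ (Nat.log 2 (H i) + 1) : ℕ) : ℤ) :=
        (hxH i j).trans (by exact_mod_cast h1.le)
      have h3 : ((|x i j| : ℤ) : ℝ) ≤ (((2 ^ (Nat.log 2 (H i) + 1) : ℕ) : ℤ) : ℝ) := by
        exact_mod_cast h2
      push_cast at h3
      exact h3
  have hfin : (⋃ e ∈ (univ : Finset (ι ≃ Fin (Fintype.card ι))), ⋃ r ∈ range (R + 1),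
      ⋃ w ∈ SS e r, D e w).Finite := by
    refine Set.Finite.biUnion (Finset.finite_toSet _) (fun e _ => ?_)
    refine Set.Finite.biUnion (Finset.finite_toSet _) (fun r _ => ?_)
    refine Set.Finite.biUnion (Finset.finite_toSet _) (fun w hw => ?_)
    exact (hbx e w (Finset.mem_filter.1 hw).2.1).1
  refine ⟨hfin.subset hsub, ?_⟩
  have hn1 : ({x ∈ T | ∃ H : ι → ℕ, (∀ i, 1 ≤ H i) ∧ (∀ i j, |x i j| ≤ H i) ∧
      ((∏ i, H i ^ n i : ℕ) : ℝ) ≤ X}.ncard) ≤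
      ∑ e : ι ≃ Fin (Fintype.card ι), ∑ r ∈ range (R + 1), ∑ w ∈ SS e r, (D e w).ncard := by
    refine (Set.ncard_le_ncard hsub hfin).trans ?_
    refine (Finset.set_ncard_biUnion_le _ _).trans (Finset.sum_le_sum (fun e _ => ?_))
    refine (Finset.set_ncard_biUnion_le _ _).trans (Finset.sum_le_sum (fun r _ => ?_))
    exact Finset.set_ncard_biUnion_le _ _
  have hn2 : ((∑ e : ι ≃ Fin (Fintype.card ι), ∑ r ∈ range (R + 1), ∑ w ∈ SS e r, (D e w).ncard : ℕ) : ℝ) ≤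
      ∑ e : ι ≃ Fin (Fintype.card ι), ∑ r ∈ range (R + 1), C * Ce e * 2 ^ r := by
    push_cast
    refine Finset.sum_le_sum (fun e _ => Finset.sum_le_sum (fun r _ => ?_))
    calc ∑ w ∈ SS e r, ((D e w).ncard : ℝ)
        ≤ ∑ w ∈ SS e r, C * 2 ^ r * Phi (Fintype.card ι) b (fun j => if h : j < Fintype.card ι then
          1 + (w ⟨j, h⟩ : ℝ) * Real.log 2 else 1) (Fintype.card ι - 1) := by
          refine Finset.sum_le_sum (fun w hw => ?_)
          have h1 := (hbx e w (Finset.mem_filter.1 hw).2.1).2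
          rw [(Finset.mem_filter.1 hw).2.2] at h1
          exact h1
      _ = C * 2 ^ r * ∑ w ∈ SS e r, Phi (Fintype.card ι) b (fun j => if h : j < Fintype.card ι then
          1 + (w ⟨j, h⟩ : ℝ) * Real.log 2 else 1) (Fintype.card ι - 1) := by
          rw [Finset.mul_sum]
      _ ≤ C * 2 ^ r * Ce e := mul_le_mul_of_nonneg_left (hCe e r) (by positivity)
      _ = C * Ce e * 2 ^ r := by ring
  have hgeo : ∑ r ∈ range (R + 1), (2 : ℝ) ^ r ≤ 2 ^ (∑ i, n i + 1) * X := by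
    have h0 : (1 : ℝ) ≤ 2 ^ (∑ i, n i) * X := by
      have h1 : (1 : ℝ) ≤ 2 ^ (∑ i, n i) := one_le_pow₀ one_le_two
      nlinarith
    have h1 : (2 : ℝ) ^ R ≤ 2 ^ (∑ i, n i) * X := by
      have h2 : (2 : ℕ) ^ R ≤ ⌊(2 : ℝ) ^ (∑ i, n i) * X⌋₊ := by
        rw [hR]
        refine Nat.pow_log_le_self 2 ?_
        have : 1 ≤ ⌊(2 : ℝ) ^ (∑ i, n i) * X⌋₊ := Nat.le_floor (by simpa using h0)
        omega
      have h3 : (((2 : ℕ) ^ R : ℕ) : ℝ) ≤ (⌊(2 : ℝ) ^ (∑ i, n i) * X⌋₊ : ℝ) := by exact_mod_cast h2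
      have h4 := Nat.floor_le (show (0 : ℝ) ≤ 2 ^ (∑ i, n i) * X by linarith)
      push_cast at h3
      linarith
    rw [geom_sum_eq (by norm_num)]
    have h2 : (2 : ℝ) ^ (R + 1) = 2 * 2 ^ R := by ring
    have h3 : (2 : ℝ) ^ (∑ i, n i + 1) = 2 * 2 ^ (∑ i, n i) := by ring
    rw [h2, h3]
    norm_num
    nlinarith
  have hn1' : (({x ∈ T | ∃ H : ι → ℕ, (∀ i, 1 ≤ H i) ∧ (∀ i j, |x i j| ≤ H i) ∧
      ((∏ i, H i ^ n i : ℕ) : ℝ) ≤ X}.ncard : ℕ) : ℝ) ≤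
      ((∑ e : ι ≃ Fin (Fintype.card ι), ∑ r ∈ range (R + 1), ∑ w ∈ SS e r, (D e w).ncard : ℕ) : ℝ) := by
    exact_mod_cast hn1
  calc _ ≤ _ := hn1'
    _ ≤ _ := hn2
    _ = (∑ e : ι ≃ Fin (Fintype.card ι), C * Ce e) * ∑ r ∈ range (R + 1), (2 : ℝ) ^ r := by
        rw [Finset.sum_mul]
        refine Finset.sum_congr rfl (fun e _ => ?_)
        rw [Finset.mul_sum]
    _ ≤ (∑ e : ι ≃ Fin (Fintype.card ι), C * Ce e) * (2 ^ (∑ i, n i + 1) * X) :=
        mul_le_mul_of_nonneg_left hgeo (Finset.sum_nonneg (fun e _ => (mul_pos hC (hCe0 e)).le))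
    _ ≤ ((∑ e : ι ≃ Fin (Fintype.card ι), C * Ce e) * 2 ^ (∑ i, n i + 1) + 1) * X := by
        have : (0 : ℝ) ≤ X := by linarith
        nlinarith

end Pool.Agent.Q241.ESN
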