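import Pool.Agent.Q161.ESN.Stm4
import Pool.Agent.Q224.ESF.SHAF

/-!
Project ESN (helper161), job SHAF: the classes of the elements of the Selmer group, `D ∈ F^*`.
-/

set_option autoImplicit false

namespace Pool.Agent.Q241.ESN

open WeierstrassCurve Polynomial NumberField IsDedekindDomain

open scoped Classical

open Pool.Agent.Q161.ESG (shF)
open Pool.Agent.Q161.ESF (CubF Sel2 S_KDF S_KIF S_KLF S_INF KDF EvLoc selC GF)
open Pool.Agent.Q161.ESN
open Pool.Agent.Q224.ESF (nd monic no_root disc_ne exists_poly)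

theorem cub_twF {F L : Type} [Field F] [Field L] [Algebra F L] {A B : F} {ϑ : L} (h : CubF A B L ϑ)
    {D : F} (hD : D ≠ 0) :
    CubF (A * D ^ 2) (B * D ^ 3) L (algebraMap F L D * ϑ) := by
  refine ⟨?_, ?_, h.deg⟩
  · have hne : (X ^ 3 + C (A * D ^ 2) * X + C (B * D ^ 3) : F[X]) ≠ 0 := (monic _ _).ne_zero
    rw [irreducible_iff_roots_eq_zero_of_degree_le_three (by rw [nd]; norm_num) (by rw [nd])]
    rw [Multiset.eq_zero_iff_forall_notMem]
    intro x hx
    rw [mem_roots hne, IsRoot.def] at hx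
    simp only [eval_add, eval_pow, eval_X, eval_mul, eval_C] at hx
    apply no_root h.irr (x / D)
    have : (x / D) ^ 3 + A * (x / D) + B = (x ^ 3 + A * D ^ 2 * x + B * D ^ 3) / D ^ 3 := by
      field_simp
    rw [this, hx, zero_div]
  · have := h.root
    rw [map_mul, map_mul, map_pow, map_pow]
    linear_combination (algebraMap F L D) ^ 3 * this

theorem shaf : S_KDF → S_KIF → S_KLF → S_INF → S_APX → S_SHAF := by
  intro hKD hKI hKL hINF hAPX F L _ _ _ _ _ a b th hC0 D hD
  have hC := cub_twF hC0 hD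
  set A := (a : F) * D ^ 2 with hA
  set B := (b : F) * D ^ 3 with hB
  have hex : ∀ x : Sel2 (shF A B), ∃ (γ : (L →ₐ[F] AlgebraicClosure F) → AlgebraicClosure F) (δ : L),
      KDF (shF A B) (algebraMap F L D * (th : L)) (Quotient.out x : selC (shF A B)).1 γ δ := by
    intro x
    exact hKD F A B L _ hC _ (Quotient.out x).2.1.1 (Quotient.out x).2.2
  choose γ δ hγ using hex
  have hloc : ∀ x : Sel2 (shF A B), EvLoc (shF A B) (Quotient.out x : selC (shF A B)).1 :=
    fun x => (Quotient.out x).2.1.2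
  have htor : ∀ (x : Sel2 (shF A B)) (σ : GF F),
      (Quotient.out x : selC (shF A B)).1 σ + (Quotient.out x : selC (shF A B)).1 σ = 0 :=
    fun x => (Quotient.out x).2.2
  have hδ0 : ∀ x, δ x ≠ 0 := by
    intro x h0
    obtain ⟨e⟩ : Nonempty (L →ₐ[F] AlgebraicClosure F) := ⟨IsAlgClosed.lift⟩
    have h1 := (hγ x).sq e
    rw [h0, map_zero] at h1
    exact (hγ x).ne e (pow_eq_zero_iff two_ne_zero |>.1 h1)
  refine ⟨δ, fun x => ⟨hδ0 x, fun v hv => ?_⟩, fun x y hxy => ?_⟩
  · obtain ⟨d, hd⟩ := exists_poly hC (δ x)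
    obtain ⟨X0, Y0, g, hY, hE, hdiv⟩ := hKL F A B L _ hC _ _ _ (htor x) (hγ x) (v.adicCompletion F) ((hloc x).1 v)
      (hINF F A B (disc_ne hC.irr) v hv) d hd
    exact hAPX F L a b th hC0 D hD v (δ x) (hδ0 x) d X0 Y0 g hd hY hE hdiv
  · obtain ⟨T, hT, h1⟩ := hKI F A B L _ hC _ _ _ _ _ _ (htor y) (htor x) (hγ y) (hγ x) (by rwa [mul_comm])
    have h2 : (QuotientAddGroup.mk (Quotient.out x : selC (shF A B)) : Sel2 (shF A B)) =
        QuotientAddGroup.mk (Quotient.out y : selC (shF A B)) := by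
      rw [QuotientAddGroup.eq, AddSubgroup.mem_addSubgroupOf]
      refine ⟨T, hT, fun σ => ?_⟩
      have h5 : - (Quotient.out x : selC (shF A B)).1 σ + (Quotient.out y : selC (shF A B)).1 σ =
          (Quotient.out y : selC (shF A B)).1 σ - (Quotient.out x : selC (shF A B)).1 σ := by abel
      exact h5.trans (h1 σ)
    have h3 : (QuotientAddGroup.mk (Quotient.out x : selC (shF A B)) : Sel2 (shF A B)) = x :=
      Quotient.out_eq x
    have h4 : (QuotientAddGroup.mk (Quotient.out y : selC (shF A B)) : Sel2 (shF A B)) = y :=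
      Quotient.out_eq y
    rw [← h3, ← h4, h2]

end Pool.Agent.Q241.ESN
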